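import Pool.Agent.Helper88.QT.St1
import Pool.Agent.Helper85.QT.St1

/-! QT module ZS0. -/

set_option autoImplicit false

open MeasureTheory Matrix Set Topology
open scoped ENNReal ComplexConjugate

namespace Pool.Agent.Helper58.QT

open Pool.Agent.Helper88.QT Pool.Agent.Helper85.QT Pool.Agent.Helper86.QA
open Pool.Agent.Helper35.PM (hs len classes num ent)

/-- entries of a product in `SL` -/
theorem sl_mul (g h : SL) : (g * h) 0 0 = g 0 0 * h 0 0 + g 0 1 * h 1 0 ∧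
    (g * h) 0 1 = g 0 0 * h 0 1 + g 0 1 * h 1 1 ∧
    (g * h) 1 0 = g 1 0 * h 0 0 + g 1 1 * h 1 0 ∧
    (g * h) 1 1 = g 1 0 * h 0 1 + g 1 1 * h 1 1 := by
  refine ⟨?_, ?_, ?_, ?_⟩ <;>
    simp only [Matrix.SpecialLinearGroup.coe_mul, Matrix.mul_apply, Fin.sum_univ_two]

theorem sl_det (g : SL) : g 0 0 * g 1 1 - g 0 1 * g 1 0 = 1 := by
  have h := g.2
  rw [Matrix.det_fin_two] at h
  exact h

/-- entries of the inverse in `SL` -/
theorem sl_inv (g : SL) : (g⁻¹) 0 0 = g 1 1 ∧ (g⁻¹) 0 1 = -g 0 1 ∧ (g⁻¹) 1 0 = -g 1 0 ∧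
    (g⁻¹) 1 1 = g 0 0 := by
  refine ⟨?_, ?_, ?_, ?_⟩ <;>
    simp [Matrix.SpecialLinearGroup.coe_inv, Matrix.adjugate_fin_two]

/-- powers of a diagonal element -/
theorem dz (D : SL) (h01 : D 0 1 = 0) (h10 : D 1 0 = 0) (n : ℤ) :
    (D ^ n) 0 1 = 0 ∧ (D ^ n) 1 0 = 0 ∧ (D ^ n) 0 0 = (D 0 0) ^ n ∧ (D ^ n) 1 1 = (D 1 1) ^ n := by
  have hdet := sl_det D
  rw [h01, zero_mul, sub_zero] at hdet
  have hp : D 0 0 ≠ 0 := left_ne_zero_of_mul_eq_one hdet
  have hq : D 1 1 ≠ 0 := right_ne_zero_of_mul_eq_one hdet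
  induction n using Int.induction_on with
  | zero => simp
  | succ n ih =>
    obtain ⟨i1, i2, i3, i4⟩ := ih
    rw [_root_.zpow_add_one]
    obtain ⟨e1, e2, e3, e4⟩ := sl_mul (D ^ (n : ℤ)) D
    rw [e1, e2, e3, e4, i1, i2, i3, i4, h01, h10, zpow_add_one₀ hp, zpow_add_one₀ hq]
    simp
  | pred n ih =>
    obtain ⟨i1, i2, i3, i4⟩ := ih
    rw [_root_.zpow_sub_one]
    obtain ⟨e1, e2, e3, e4⟩ := sl_mul (D ^ (-(n : ℤ))) D⁻¹
    obtain ⟨f1, f2, f3, f4⟩ := sl_inv D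
    rw [e1, e2, e3, e4, i1, i2, i3, i4, f1, f2, f3, f4, h01, h10, zpow_sub_one₀ hp,
      zpow_sub_one₀ hq]
    have g1 : (D 0 0)⁻¹ = D 1 1 := by
      rw [inv_eq_iff_eq_inv]; exact eq_inv_of_mul_eq_one_left hdet
    have g2 : (D 1 1)⁻¹ = D 0 0 := by
      rw [inv_eq_iff_eq_inv]; exact eq_inv_of_mul_eq_one_right hdet
    rw [g1, g2]
    simp

/-- a matrix intertwining two diagonal ones is diagonal or antidiagonal -/
theorem dcomm (P E F : SL) (e01 : E 0 1 = 0) (e10 : E 1 0 = 0) (f01 : F 0 1 = 0) (f10 : F 1 0 = 0)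
    (hne : E 0 0 ≠ E 1 1) (h : P * E = F * P) :
    (P 0 1 = 0 ∧ P 1 0 = 0) ∨ (P 0 0 = 0 ∧ P 1 1 = 0) := by
  have hE := sl_det E
  have hF := sl_det F
  have hP := sl_det P
  rw [e01, zero_mul, sub_zero] at hE
  rw [f01, zero_mul, sub_zero] at hF
  obtain ⟨a1, a2, a3, a4⟩ := sl_mul P E
  obtain ⟨b1, b2, b3, b4⟩ := sl_mul F P
  rw [h] at a1 a2 a3 a4
  have c1 : P 0 0 * E 0 0 = F 0 0 * P 0 0 := by
    have := a1.symm.trans b1; rw [e10, f01] at this; simpa using this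
  have c2 : P 0 1 * E 1 1 = F 0 0 * P 0 1 := by
    have := a2.symm.trans b2; rw [e01, f01] at this; simpa using this
  have c3 : P 1 0 * E 0 0 = F 1 1 * P 1 0 := by
    have := a3.symm.trans b3; rw [e10, f10] at this; simpa using this
  have c4 : P 1 1 * E 1 1 = F 1 1 * P 1 1 := by
    have := a4.symm.trans b4; rw [e01, f10] at this; simpa using this
  have hE0 : E 0 0 ≠ 0 := left_ne_zero_of_mul_eq_one hE
  by_cases h0 : P 0 0 = 0
  · right
    refine ⟨h0, ?_⟩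
    have h01 : P 0 1 ≠ 0 := by
      intro h1; rw [h0, h1] at hP; simp at hP
    have hf : E 1 1 = F 0 0 := by
      have : P 0 1 * E 1 1 = P 0 1 * F 0 0 := by rw [c2]; ring
      exact mul_left_cancel₀ h01 this
    have hf' : F 1 1 = E 0 0 := by
      have h2 : F 0 0 * F 1 1 = F 0 0 * E 0 0 := by rw [hF, ← hf, mul_comm, hE]
      exact mul_left_cancel₀ (left_ne_zero_of_mul_eq_one hF) h2
    by_contra h1
    rw [hf', mul_comm] at c4
    exact hne (mul_right_cancel₀ h1 c4).symm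
  · left
    have hf : E 0 0 = F 0 0 := by
      have : P 0 0 * E 0 0 = P 0 0 * F 0 0 := by rw [c1]; ring
      exact mul_left_cancel₀ h0 this
    have hf' : F 1 1 = E 1 1 := by
      have h2 : F 0 0 * F 1 1 = F 0 0 * E 1 1 := by rw [hF, ← hf, hE]
      exact mul_left_cancel₀ (left_ne_zero_of_mul_eq_one hF) h2
    constructor
    · by_contra h1
      rw [← hf, mul_comm] at c2
      exact hne (mul_right_cancel₀ h1 c2).symm
    · by_contra h1
      rw [hf', mul_comm] at c3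
      exact hne (mul_right_cancel₀ h1 c3)

theorem hZS0 : Pool.Agent.Helper88.QT.StZS0 := by
  intro Γ _ ρ A B α lam M G m φ C3 hA
  have hexp : Complex.exp lam ≠ 1 := by
    intro h
    have h1 : ‖Complex.exp lam‖ = 1 := by rw [h]; simp
    rw [Complex.norm_exp, Real.exp_eq_one_iff] at h1
    exact hA.re.ne' h1
  have hdet := sl_det (ρ α)
  rw [hA.dg.1, zero_mul, sub_zero] at hdet
  have hq : (ρ α) 1 1 ≠ 0 := right_ne_zero_of_mul_eq_one hdet
  have hne : (ρ α) 0 0 ≠ (ρ α) 1 1 := by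
    intro h
    rw [hA.mu] at h
    exact hexp (mul_right_cancel₀ hq (h.trans (one_mul _).symm))
  refine ⟨?_, ?_, ?_⟩
  · intro δ hδ
    have hfin := hA.kd.disc 2
    have hρ : ρ δ = 1 := by
      apply Subtype.ext
      rw [hδ]; simp
    have hpow : ∀ n : ℕ, δ ^ n ∈ {γ : Γ | hs (ρ γ) ≤ 2} := by
      intro n
      rw [Set.mem_ofPred_eq, map_pow, hρ, one_pow]
      simp only [Pool.Agent.Helper35.PM.hs, Matrix.SpecialLinearGroup.coe_one]
      simp [Fin.sum_univ_two]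
      try norm_num
    have hninj : ¬ Function.Injective (fun n : ℕ => δ ^ n) := by
      intro hinj
      have h1 : (Set.range (fun n : ℕ => δ ^ n)).Infinite := Set.infinite_range_of_injective hinj
      exact h1 (hfin.subset (by rintro _ ⟨n, rfl⟩; exact hpow n))
    simp only [Function.Injective] at hninj
    push Not at hninj
    obtain ⟨a, b, hab, hne'⟩ := hninj
    have key : ∀ a b : ℕ, a < b → δ ^ a = δ ^ b → δ = 1 := by
      intro a b hlt h
      refine hA.kd.tf δ (b - a) (by omega) ?_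
      have h1 : δ ^ a * δ ^ (b - a) = δ ^ a * 1 := by
        rw [← pow_add, mul_one, h]; congr 1; omega
      exact mul_left_cancel h1
    rcases Nat.lt_or_gt_of_ne hne' with h | h
    · exact key a b h hab
    · exact key b a h hab.symm
  · intro β hβ
    have h1 : ρ β * ρ α = ρ α * ρ β := by rw [← map_mul, hβ, map_mul]
    exact hA.st β (dcomm (ρ β) (ρ α) (ρ α) hA.dg.1 hA.dg.2 hA.dg.1 hA.dg.2 hne h1)
  · intro β k hk
    obtain ⟨z1, z2, _, _⟩ := dz (ρ α) hA.dg.1 hA.dg.2 k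
    rw [← map_zpow] at z1 z2
    obtain ⟨v1, v2, v3, v4⟩ := sl_inv (ρ α)
    rw [← map_inv] at v1 v2 v3 v4
    rcases hk with hk | hk
    · have h1 : ρ β * ρ α = ρ (α ^ k) * ρ β := by
        rw [← map_mul, ← map_mul, ← hk]; congr 1; group
      exact hA.st β (dcomm (ρ β) (ρ α) (ρ (α ^ k)) hA.dg.1 hA.dg.2 z1 z2 hne h1)
    · have h1 : ρ β * ρ α⁻¹ = ρ (α ^ k) * ρ β := by
        rw [← map_mul, ← map_mul, ← hk]; congr 1; group
      refine hA.st β (dcomm (ρ β) (ρ α⁻¹) (ρ (α ^ k)) ?_ ?_ z1 z2 ?_ h1)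
      · rw [v2, hA.dg.1, neg_zero]
      · rw [v3, hA.dg.2, neg_zero]
      · rw [v1, v4]; exact hne.symm

end Pool.Agent.Helper58.QT
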