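import Pool.Agent.Helper88.QT.St2
import Pool.Agent.Helper85.QT.St1
import Pool.Agent.Helper58.QT.M_ZS0

/-! QT module INV. -/

set_option autoImplicit false

open MeasureTheory Matrix Set Topology
open scoped ENNReal ComplexConjugate

namespace Pool.Agent.Helper58.QT

open Pool.Agent.Helper88.QT Pool.Agent.Helper85.QT Pool.Agent.Helper86.QA
open Pool.Agent.Helper35.PM (hs len classes num ent)

/-- representatives of translated cosets -/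
theorem out_smul {Γ : Type} [Group Γ] (α δ : Γ) (i : Li α) :
    ∃ n : ℤ, (Quotient.out (δ • i))⁻¹ = α ^ n * (Quotient.out i)⁻¹ * δ⁻¹ := by
  have h1 : ((Quotient.out (δ • i) : Γ) : Li α) = ((δ * Quotient.out i : Γ) : Li α) := by
    have e1 : ((Quotient.out (δ • i) : Γ) : Li α) = δ • i := Quotient.out_eq' _
    have e2 : ((Quotient.out i : Γ) : Li α) = i := Quotient.out_eq' _
    rw [e1]
    conv_lhs => rw [← e2]
    rfl
  rw [QuotientGroup.eq, Subgroup.mem_zpowers_iff] at h1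
  obtain ⟨n, hn⟩ := h1
  refine ⟨n, ?_⟩
  rw [hn]; group

theorem hINV (hACT : Pool.Agent.Helper86.QA.StACT) (hCHV : Pool.Agent.Helper86.QA.StCHV)
    (hSB3 : Pool.Agent.Helper85.QT.StSB3) (hFDM : Pool.Agent.Helper88.QT.StFDM)
    (hXPT : Pool.Agent.Helper88.QT.StXPT) (hGPM : Pool.Agent.Helper88.QT.StGPM) :
    Pool.Agent.Helper88.QT.StINV := by
  intro Γ _ ρ A B α lam M G m φ C3 hA
  have hlam : lam ≠ 0 := by
    intro h; have := hA.re; rw [h] at this; simp at this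
  have hdet := sl_det (ρ α)
  rw [hA.dg.1, zero_mul, sub_zero] at hdet
  have hq : (ρ α) 1 1 ≠ 0 := right_ne_zero_of_mul_eq_one hdet
  have hpow : ∀ n : ℤ, (ρ (α ^ n)) 0 1 = 0 ∧ (ρ (α ^ n)) 1 0 = 0 ∧
      (ρ (α ^ n)) 0 0 / (ρ (α ^ n)) 1 1 = Complex.exp (n * lam) := by
    intro n
    obtain ⟨z1, z2, z3, z4⟩ := dz (ρ α) hA.dg.1 hA.dg.2 n
    rw [map_zpow]
    refine ⟨z1, z2, ?_⟩
    rw [z3, z4, hA.mu, mul_zpow, Complex.exp_int_mul]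
    field_simp
  have hXd := (hXPT lam hlam).2.2.2.1
  have hTi : ∀ (δ : Γ) (i : Li α), ∀ x ∈ up,
      Ti ρ α lam (δ • i) (ga (ρ δ) x) = Ti ρ α lam i x := by
    intro δ i x hx
    obtain ⟨n, hn⟩ := out_smul α δ i
    have hy : ga (ρ (Quotient.out i)⁻¹) x ∈ up := (hACT.1 _ x hx).2.1
    have hx' : ga (ρ δ) x ∈ up := (hACT.1 _ x hx).2.1
    have h1 : ga (ρ (Quotient.out (δ • i))⁻¹) (ga (ρ δ) x) =
        ga (ρ (α ^ n)) (ga (ρ (Quotient.out i)⁻¹) x) := by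
      rw [← hACT.2.1 _ _ x hx, ← map_mul, ← hACT.2.1 _ _ x hx, ← map_mul]
      congr 2
      rw [hn]; group
    show TT lam (ga (ρ (Quotient.out (δ • i))⁻¹) (ga (ρ δ) x)) =
      TT lam (ga (ρ (Quotient.out i)⁻¹) x)
    rw [h1]
    exact (hXd (ρ (α ^ n)) _ hy (hpow n).1 (hpow n).2.1).2.1
  refine ⟨hpow, hTi, ?_⟩
  intro δ a b u u' hadm
  have hra := hadm.ra δ
  have hrb := hadm.rb δ
  obtain ⟨hne', _⟩ := hGPM.2.1 (ρ δ) a b 0 hadm.ne hra.1 hrb.1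
  obtain ⟨κ, hκ⟩ : ∃ κ : ℝ, κ = Real.log (‖ρ δ 1 0 * a + ρ δ 1 1‖ / ‖ρ δ 1 0 * b + ρ δ 1 1‖) :=
    ⟨_, rfl⟩
  have hgp : ∀ w : ℝ, ga (ρ δ) (gp a b w) = gp (mb (ρ δ) a) (mb (ρ δ) b) (w + κ) := by
    intro w
    rw [hκ]
    exact (hGPM.2.1 (ρ δ) a b w hadm.ne hra.1 hrb.1).2
  have hup : ∀ w : ℝ, gp a b w ∈ up := fun w => (hGPM.1 a b w w hadm.ne).1
  have hreg : ∀ c : ℂ, Reg ρ c → Reg ρ (mb (ρ δ) c) := by
    intro c hc h
    have h1 := hCHV.2.1 (ρ h) (ρ δ) c (hc δ).1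
    rw [← map_mul] at h1
    have h2 := hc (h * δ)
    have h3 : ρ h 1 0 * mb (ρ δ) c + ρ h 1 1 ≠ 0 := by
      intro h4
      rw [h4, zero_mul] at h1
      exact h2.1 h1.2
    refine ⟨h3, ?_⟩
    intro h4
    have h5 : mb (ρ (h * δ)) c = 0 := by
      rw [h1.1]
      show (ρ h 0 0 * mb (ρ δ) c + ρ h 0 1) / (ρ h 1 0 * mb (ρ δ) c + ρ h 1 1) = 0
      rw [h4, zero_div]
    have h6 : mb (ρ (h * δ)) c ≠ 0 := div_ne_zero h2.2 h2.1
    exact h6 h5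
  have hTi' : ∀ (i : Li α) (w : ℝ),
      Ti ρ α lam (δ • i) (gp (mb (ρ δ) a) (mb (ρ δ) b) (w + κ)) = Ti ρ α lam i (gp a b w) := by
    intro i w
    rw [← hgp w]
    exact hTi δ i _ (hup w)
  have hCr : Cr ρ α lam (mb (ρ δ) a) (mb (ρ δ) b) (u + κ) (u' + κ) =
      (fun i : Li α => δ • i) '' Cr ρ α lam a b u u' := by
    ext j
    constructor
    · rintro ⟨v, hv, hv'⟩
      refine ⟨δ⁻¹ • j, ⟨v - κ, ⟨by linarith [hv.1], by linarith [hv.2]⟩, ?_⟩, ?_⟩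
      · have h1 := hTi' (δ⁻¹ • j) (v - κ)
        rw [smul_inv_smul, sub_add_cancel] at h1
        rw [← h1]; exact hv'
      · exact smul_inv_smul δ j
    · rintro ⟨i, ⟨v, hv, hv'⟩, rfl⟩
      refine ⟨v + κ, ⟨by linarith [hv.1], by linarith [hv.2]⟩, ?_⟩
      have h1 := hTi' i v
      show 2 * cz < Ti ρ α lam (δ • i) (gp (mb (ρ δ) a) (mb (ρ δ) b) (v + κ))
      rw [h1]; exact hv'
  have hinj : Function.Injective (fun i : Li α => δ • i) := MulAction.injective δ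
  have hSB := (hSB3 Γ ρ A B hA.kd).2.1
  refine ⟨κ, ⟨hSB δ a hadm.la hra.1, hSB δ b hadm.lb hrb.1, hne', hreg a hadm.ra,
    hreg b hadm.rb, by linarith [hadm.le], ?_, ?_⟩, hgp, ?_, ?_⟩
  · intro i
    have h1 := hTi' (δ⁻¹ • i) u
    rw [smul_inv_smul] at h1
    rw [h1]; exact hadm.st _
  · intro i
    have h1 := hTi' (δ⁻¹ • i) u'
    rw [smul_inv_smul] at h1
    rw [h1]; exact hadm.en _
  · rw [hCr, Set.ncard_image_of_injective _ hinj]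
  · intro m'
    show ∑ᶠ i ∈ Cr ρ α lam (mb (ρ δ) a) (mb (ρ δ) b) (u + κ) (u' + κ),
      oi ρ α lam m' i (mb (ρ δ) a) (mb (ρ δ) b) = ∑ᶠ i ∈ Cr ρ α lam a b u u', oi ρ α lam m' i a b
    rw [hCr, finsum_mem_image hinj.injOn]
    refine finsum_mem_congr rfl ?_
    intro i _
    obtain ⟨n, hn⟩ := out_smul α δ i
    have hoo : oo ∈ up := by show (0 : ℝ) < 1; exact one_pos
    obtain ⟨_, _, _, hq0, hqm, _⟩ := hXd (ρ (α ^ n)) oo hoo (hpow n).1 (hpow n).2.1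
    have hmb : ∀ c : ℂ, Reg ρ c → mb (ρ (Quotient.out (δ • i))⁻¹) (mb (ρ δ) c) =
        (ρ (α ^ n)) 0 0 / (ρ (α ^ n)) 1 1 * mb (ρ (Quotient.out i)⁻¹) c ∧
        mb (ρ (Quotient.out i)⁻¹) c ≠ 0 := by
      intro c hc
      refine ⟨?_, div_ne_zero (hc _).2 (hc _).1⟩
      rw [← (hCHV.2.1 (ρ (Quotient.out (δ • i))⁻¹) (ρ δ) c (hc δ).1).1, ← map_mul]
      have h1 : (Quotient.out (δ • i))⁻¹ * δ = α ^ n * (Quotient.out i)⁻¹ := by
        rw [hn]; group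
      rw [h1, map_mul, (hCHV.2.1 (ρ (α ^ n)) (ρ (Quotient.out i)⁻¹) c (hc _).1).1, hqm]
    obtain ⟨ha1, ha2⟩ := hmb a hadm.ra
    obtain ⟨hb1, hb2⟩ := hmb b hadm.rb
    show om lam m' (mb (ρ (Quotient.out (δ • i))⁻¹) (mb (ρ δ) a))
      (mb (ρ (Quotient.out (δ • i))⁻¹) (mb (ρ δ) b)) =
      om lam m' (mb (ρ (Quotient.out i)⁻¹) a) (mb (ρ (Quotient.out i)⁻¹) b)
    rw [ha1, hb1]
    unfold Helper88.QT.om
    rw [(hFDM lam hlam).2.2.1 _ _ _ hq0 ha2 hb2, norm_mul, norm_mul]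
    have h3 : ‖(ρ (α ^ n)) 0 0 / (ρ (α ^ n)) 1 1‖ ≠ 0 := norm_ne_zero_iff.mpr hq0
    rw [mul_div_mul_left _ _ h3]

end Pool.Agent.Helper58.QT
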